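import Pool.Agent.X181.SP.Dec

/-!
# The curvature tensor of complex projective space is a sum of decomposable squares
-/

set_option autoImplicit false

namespace Pool.Agent.X181.SP

open Pool.Agent.W666.GB Pool.Agent.W669.HD Pool.Agent.Y519.HB Finset

/-- the fourth roots of unity -/
noncomputable def u (z : ZMod 4) : ℂ := Complex.I ^ z.val

theorem u_add (z : ZMod 4) : u (z + 1) = Complex.I * u z := by
  unfold u
  have h4 : Complex.I ^ 4 = 1 := Complex.I_pow_four
  have h0 : (0 : ZMod 4).val = 0 := rfl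
  have h1 : (1 : ZMod 4).val = 1 := rfl
  have h2 : (2 : ZMod 4).val = 2 := rfl
  have h3 : (3 : ZMod 4).val = 3 := rfl
  have hz : z = 0 ∨ z = 1 ∨ z = 2 ∨ z = 3 := by revert z; decide
  rcases hz with rfl | rfl | rfl | rfl
  · rw [show (0 : ZMod 4) + 1 = 1 by decide, h0, h1]; ring
  · rw [show (1 : ZMod 4) + 1 = 2 by decide, h1, h2]; ring
  · rw [show (2 : ZMod 4) + 1 = 3 by decide, h2, h3]; ring
  · rw [show (3 : ZMod 4) + 1 = 0 by decide, h0, h3]
    rw [pow_zero, ← h4]; ring

theorem u_conj (z : ZMod 4) : (starRingEnd ℂ) (u z) * u z = 1 := by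
  unfold u
  rw [map_pow, ← mul_pow, Complex.conj_I, neg_mul, Complex.I_mul_I, neg_neg, one_pow]

variable {d : ℕ}

/-- the fourth moment sum -/
noncomputable def mo (j k l m : Fin d) (ε : Fin d → ZMod 4) : ℂ :=
  (starRingEnd ℂ) (u (ε j)) * u (ε k) * ((starRingEnd ℂ) (u (ε l)) * u (ε m))

/-- rotation of the coordinate `p` -/
def sh (p : Fin d) : (Fin d → ZMod 4) ≃ (Fin d → ZMod 4) :=
  Equiv.piCongrRight fun j => if j = p then Equiv.addRight 1 else Equiv.refl _

theorem u_shift (p j : Fin d) (ε : Fin d → ZMod 4) :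
    u (sh p ε j) = (if j = p then Complex.I else 1) * u (ε j) := by
  unfold sh
  rw [Equiv.piCongrRight_apply]
  by_cases h : j = p
  · simp only [if_pos h, Equiv.coe_addRight, Pi.map_apply]
    exact u_add _
  · simp only [if_neg h, Pi.map_apply]
    rw [one_mul]
    rfl

theorem mo_shift (j k l m p : Fin d) (ε : Fin d → ZMod 4) :
    mo j k l m (sh p ε) =
      ((starRingEnd ℂ) (if j = p then Complex.I else 1) * (if k = p then Complex.I else 1) *
        ((starRingEnd ℂ) (if l = p then Complex.I else 1) * (if m = p then Complex.I else 1))) *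
      mo j k l m ε := by
  unfold mo
  rw [u_shift, u_shift, u_shift, u_shift, map_mul, map_mul]
  ring

theorem sum_zero {j k l m p : Fin d}
    (h : ((starRingEnd ℂ) (if j = p then Complex.I else 1) * (if k = p then Complex.I else 1) *
        ((starRingEnd ℂ) (if l = p then Complex.I else 1) * (if m = p then Complex.I else 1))) ≠ 1) :
    ∑ ε, mo j k l m ε = 0 := by
  have h1 : ∑ ε, mo j k l m ε = ∑ ε, mo j k l m (sh p ε) := (Equiv.sum_comp (sh p) _).symm
  simp only [mo_shift] at h1
  rw [← mul_sum] at h1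
  have h2 : (1 - ((starRingEnd ℂ) (if j = p then Complex.I else 1) *
      (if k = p then Complex.I else 1) *
      ((starRingEnd ℂ) (if l = p then Complex.I else 1) * (if m = p then Complex.I else 1)))) *
      ∑ ε, mo j k l m ε = 0 := by
    rw [sub_mul, one_mul, sub_eq_zero]
    exact h1
  rcases mul_eq_zero.1 h2 with h3 | h3
  · exact absurd (sub_eq_zero.1 h3).symm h
  · exact h3

theorem I_ne : Complex.I ≠ 1 := fun h => by
  have := congrArg Complex.re h
  simp at this

theorem nI_ne : -Complex.I ≠ 1 := fun h => by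
  have := congrArg Complex.re h
  simp at this

theorem bad_zero {j k l m : Fin d} (h : ¬ ((j = k ∧ l = m) ∨ (j = m ∧ l = k))) :
    ∑ ε, mo j k l m ε = 0 := by
  rw [not_or] at h
  obtain ⟨h1, h2⟩ := h
  by_cases hjk : j = k
  · subst hjk
    have hlm : l ≠ m := fun hh => h1 ⟨rfl, hh⟩
    by_cases hjm : j = m
    · subst hjm
      refine sum_zero (p := j) ?_
      simp only [if_true, if_neg hlm, map_one, Complex.conj_I]
      rw [neg_mul, Complex.I_mul_I, neg_neg, one_mul, one_mul]
      exact I_ne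
    · by_cases hlj : l = j
      · subst hlj
        refine sum_zero (p := l) ?_
        simp only [if_true, if_neg (Ne.symm hjm), Complex.conj_I]
        rw [neg_mul, Complex.I_mul_I, neg_neg, one_mul, mul_one]
        exact nI_ne
      · refine sum_zero (p := l) ?_
        simp only [if_true, if_neg (Ne.symm hlj), if_neg (Ne.symm hlm), map_one, Complex.conj_I]
        rw [one_mul, one_mul, mul_one]
        exact nI_ne
  · by_cases hjm : j = m
    · subst hjm
      have hlk : l ≠ k := fun hh => h2 ⟨rfl, hh⟩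
      by_cases hlj : l = j
      · subst hlj
        refine sum_zero (p := l) ?_
        simp only [if_true, if_neg (Ne.symm hjk), Complex.conj_I]
        rw [mul_one, neg_mul Complex.I Complex.I, Complex.I_mul_I, neg_neg, mul_one]
        exact nI_ne
      · refine sum_zero (p := l) ?_
        simp only [if_true, if_neg (Ne.symm hlj), if_neg (Ne.symm hlk), map_one, Complex.conj_I]
        rw [one_mul, one_mul, mul_one]
        exact nI_ne
    · refine sum_zero (p := j) ?_
      by_cases hlj : l = j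
      · simp only [if_true, if_neg (Ne.symm hjk), if_neg (Ne.symm hjm), if_pos hlj,
          Complex.conj_I]
        rw [mul_one, neg_mul_neg, Complex.I_mul_I]
        norm_num
      · simp only [if_true, if_neg (Ne.symm hjk), if_neg (Ne.symm hjm), if_neg hlj, map_one,
          Complex.conj_I]
        rw [mul_one, mul_one, mul_one]
        exact nI_ne

theorem good_one {j k l m : Fin d} (h : (j = k ∧ l = m) ∨ (j = m ∧ l = k)) (ε : Fin d → ZMod 4) :
    mo j k l m ε = 1 := by
  unfold mo
  rcases h with ⟨rfl, rfl⟩ | ⟨rfl, rfl⟩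
  · rw [u_conj, u_conj, one_mul]
  · calc _ = ((starRingEnd ℂ) (u (ε j)) * u (ε j)) * ((starRingEnd ℂ) (u (ε l)) * u (ε l)) := by
          ring
      _ = 1 := by rw [u_conj, u_conj, one_mul]

theorem mo_sum (j k l m : Fin d) : ∑ ε, mo j k l m ε =
    (4 : ℂ) ^ d * ((if j = k then 1 else 0) * (if l = m then 1 else 0) +
      (if j = m then 1 else 0) * (if l = k then 1 else 0) -
      (if j = k then 1 else 0) * (if l = m then 1 else 0) * (if j = l then 1 else 0)) := by
  have hc : ((Fintype.card (Fin d → ZMod 4) : ℕ) : ℂ) = (4 : ℂ) ^ d := by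
    rw [Fintype.card_fun, ZMod.card, Fintype.card_fin]
    push_cast
    rfl
  by_cases h : (j = k ∧ l = m) ∨ (j = m ∧ l = k)
  · rw [sum_congr rfl fun ε _ => good_one h ε, sum_const, card_univ, nsmul_eq_mul, mul_one, hc]
    rcases h with ⟨rfl, rfl⟩ | ⟨rfl, rfl⟩
    · by_cases hjl : j = l
      · subst hjl
        simp
      · have hlj : l ≠ j := fun hh => hjl hh.symm
        simp [hjl, hlj]
    · by_cases hjl : j = l
      · subst hjl
        simp
      · have hlj : l ≠ j := fun hh => hjl hh.symm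
        simp [hjl, hlj]
  · rw [bad_zero h]
    rw [not_or] at h
    obtain ⟨h1, h2⟩ := h
    by_cases hjk : j = k <;> by_cases hlm : l = m <;> by_cases hjm : j = m <;>
      by_cases hlk : l = k <;> simp_all

/-- the Hermitian form in coordinates -/
noncomputable def Hf (a b : Fin d → ℂ) : ℂ := ∑ j, a j * (starRingEnd ℂ) (b j)

/-- the random functional -/
noncomputable def hh (ε : Fin d → ZMod 4) (a : Fin d → ℂ) : ℂ :=
  ∑ j, (starRingEnd ℂ) (u (ε j)) * a j

theorem quad_sum (a b c e : Fin d → ℂ) :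
    ∑ ε, hh ε a * (starRingEnd ℂ) (hh ε b) * (hh ε c * (starRingEnd ℂ) (hh ε e)) =
      (4 : ℂ) ^ d * (Hf a b * Hf c e + Hf a e * Hf c b -
        ∑ j, a j * (starRingEnd ℂ) (b j) * (c j * (starRingEnd ℂ) (e j))) := by
  have h1 : ∀ ε, hh ε a * (starRingEnd ℂ) (hh ε b) * (hh ε c * (starRingEnd ℂ) (hh ε e)) =
      ∑ j, ∑ k, ∑ l, ∑ m, a j * (starRingEnd ℂ) (b k) * (c l * (starRingEnd ℂ) (e m)) *
        mo j k l m ε := by
    intro ε
    simp only [hh, map_sum, map_mul, Complex.conj_conj]
    rw [Finset.sum_mul_sum, Finset.sum_mul_sum, Finset.sum_mul_sum]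
    simp only [Finset.sum_mul_sum]
    rw [show (∑ j, ∑ l, ∑ k, ∑ m, (starRingEnd ℂ) (u (ε j)) * a j *
          (u (ε k) * (starRingEnd ℂ) (b k)) *
          ((starRingEnd ℂ) (u (ε l)) * c l * (u (ε m) * (starRingEnd ℂ) (e m)))) =
        ∑ j, ∑ k, ∑ l, ∑ m, (starRingEnd ℂ) (u (ε j)) * a j *
          (u (ε k) * (starRingEnd ℂ) (b k)) *
          ((starRingEnd ℂ) (u (ε l)) * c l * (u (ε m) * (starRingEnd ℂ) (e m))) from
      sum_congr rfl fun j _ => sum_comm]
    refine sum_congr rfl fun j _ => sum_congr rfl fun k _ => sum_congr rfl fun l _ =>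
      sum_congr rfl fun m _ => ?_
    unfold mo
    ring
  simp only [h1]
  rw [sum_comm]
  simp only [sum_comm (s := (univ : Finset (Fin d → ZMod 4)))]
  simp only [← mul_sum, mo_sum]
  have h2 : ∀ j k l m : Fin d, a j * (starRingEnd ℂ) (b k) * (c l * (starRingEnd ℂ) (e m)) *
      ((4 : ℂ) ^ d * ((if j = k then 1 else 0) * (if l = m then 1 else 0) +
      (if j = m then 1 else 0) * (if l = k then 1 else 0) -
      (if j = k then 1 else 0) * (if l = m then 1 else 0) * (if j = l then 1 else 0))) =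
      (4 : ℂ) ^ d * ((if j = k then (if l = m then a j * (starRingEnd ℂ) (b k) *
        (c l * (starRingEnd ℂ) (e m)) else 0) else 0) +
      (if j = m then (if l = k then a j * (starRingEnd ℂ) (b k) *
        (c l * (starRingEnd ℂ) (e m)) else 0) else 0) -
      (if j = k then (if l = m then (if j = l then a j * (starRingEnd ℂ) (b k) *
        (c l * (starRingEnd ℂ) (e m)) else 0) else 0) else 0)) := by
    intro j k l m
    split_ifs <;> ring
  simp only [h2, ← mul_sum]
  congr 1
  simp only [sum_sub_distrib, sum_add_distrib]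
  congr 1
  · congr 1
    · rw [Hf, Hf, Finset.sum_mul_sum]
      refine sum_congr rfl fun j _ => ?_
      rw [sum_eq_single j]
      · simp
      · intro k _ hk
        simp [Ne.symm hk]
      · simp
    · rw [Hf, Hf, Finset.sum_mul_sum]
      refine sum_congr rfl fun j _ => ?_
      rw [sum_comm]
      refine sum_congr rfl fun l _ => ?_
      rw [sum_eq_single l]
      · simp
        ring
      · intro k _ hk
        simp [Ne.symm hk]
      · simp
  · refine sum_congr rfl fun j _ => ?_
    rw [sum_eq_single j]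
    · rw [sum_eq_single j]
      · simp
      · intro l _ hl
        simp [Ne.symm hl]
      · simp
    · intro k _ hk
      simp [Ne.symm hk]
    · simp

theorem im_mul_im (z w : ℂ) : z.im * w.im = 1 / 2 * (z * (starRingEnd ℂ) w).re -
    1 / 2 * (z * w).re := by
  simp only [Complex.mul_re, Complex.conj_re, Complex.conj_im]
  ring

/-- **The curvature tensor of complex projective space** (sectional curvatures between `1` and
`4`) in complex coordinates. -/
noncomputable def cxT {V : Type} (Q : V → Fin d → ℂ) (a b c e : V) : ℝ :=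
  (Hf (Q a) (Q c)).re * (Hf (Q b) (Q e)).re - (Hf (Q a) (Q e)).re * (Hf (Q b) (Q c)).re +
    (Hf (Q a) (Q c)).im * (Hf (Q b) (Q e)).im - (Hf (Q a) (Q e)).im * (Hf (Q b) (Q c)).im +
    2 * ((Hf (Q a) (Q b)).im * (Hf (Q c) (Q e)).im)

theorem Hf_conj (a b : Fin d → ℂ) : (starRingEnd ℂ) (Hf a b) = Hf b a := by
  simp only [Hf, map_sum, map_mul, Complex.conj_conj]
  exact sum_congr rfl fun j _ => mul_comm _ _

theorem Hf_re (a b : Fin d → ℂ) : (Hf b a).re = (Hf a b).re := by
  rw [← Hf_conj, Complex.conj_re]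

theorem Hf_im (a b : Fin d → ℂ) : (Hf b a).im = -(Hf a b).im := by
  rw [← Hf_conj, Complex.conj_im]

theorem key (a b c e : Fin d → ℂ) :
    2 / (4 : ℝ) ^ d * ∑ ε, (hh ε a * (starRingEnd ℂ) (hh ε b)).im *
        (hh ε c * (starRingEnd ℂ) (hh ε e)).im +
      2 * ∑ j, (a j * (starRingEnd ℂ) (b j)).im * (c j * (starRingEnd ℂ) (e j)).im =
    cxT (fun x : Fin d → ℂ => x) a b c e := by
  have h4 : (4 : ℝ) ^ d ≠ 0 := by positivity
  have e1 : ∑ ε, (hh ε a * (starRingEnd ℂ) (hh ε b)).im *
      (hh ε c * (starRingEnd ℂ) (hh ε e)).im =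
      1 / 2 * ((4 : ℝ) ^ d * (Hf a b * Hf e c + Hf a c * Hf e b -
        ∑ j, a j * (starRingEnd ℂ) (b j) * (e j * (starRingEnd ℂ) (c j))).re) -
      1 / 2 * ((4 : ℝ) ^ d * (Hf a b * Hf c e + Hf a e * Hf c b -
        ∑ j, a j * (starRingEnd ℂ) (b j) * (c j * (starRingEnd ℂ) (e j))).re) := by
    have hr : ∀ z : ℂ, (4 : ℝ) ^ d * z.re = ((4 : ℂ) ^ d * z).re := by
      intro z
      rw [show ((4 : ℂ) ^ d) = (((4 : ℝ) ^ d : ℝ) : ℂ) by push_cast; rfl, Complex.re_ofReal_mul]
    rw [hr, hr, ← quad_sum a b e c, ← quad_sum a b c e, Complex.re_sum, Complex.re_sum, mul_sum,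
      mul_sum, ← sum_sub_distrib]
    refine sum_congr rfl fun ε _ => ?_
    rw [im_mul_im]
    congr 3
    rw [map_mul, Complex.conj_conj]
    ring
  have e2 : ∑ j, (a j * (starRingEnd ℂ) (b j)).im * (c j * (starRingEnd ℂ) (e j)).im =
      1 / 2 * (∑ j, a j * (starRingEnd ℂ) (b j) * (e j * (starRingEnd ℂ) (c j))).re -
      1 / 2 * (∑ j, a j * (starRingEnd ℂ) (b j) * (c j * (starRingEnd ℂ) (e j))).re := by
    rw [Complex.re_sum, Complex.re_sum, mul_sum, mul_sum, ← sum_sub_distrib]
    refine sum_congr rfl fun j _ => ?_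
    rw [im_mul_im]
    congr 3
    rw [map_mul, Complex.conj_conj]
    ring
  rw [e1, e2]
  simp only [cxT, Complex.sub_re, Complex.add_re, Complex.mul_re]
  have i1 := Hf_re c e
  have i2 := Hf_im c e
  have i3 := Hf_re b e
  have i4 := Hf_im b e
  have i5 := Hf_re b c
  have i6 := Hf_im b c
  rw [i1, i2, i3, i4, i5, i6]
  field_simp
  ring

theorem Dec.cx {V : Type} [NormedAddCommGroup V] [InnerProductSpace ℝ V] [FiniteDimensional ℝ V]
    (Q : V →ₗ[ℝ] Fin d → ℂ) : Dec (cxT (fun v => Q v)) := by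
  have hA := Dec.smul (V := V) (t := 2 / (4 : ℝ) ^ d) (Dec.of_functionals (V := V)
    (ι := Fin d → ZMod 4)
    (T := fun a b c e => ∑ ε : Fin d → ZMod 4, sqF (fun v => (hh ε (Q v)).im)
      (fun v => (hh ε (Q v)).re) a b c e)
    (fun ε => Complex.imLm.comp ((∑ j, ((starRingEnd ℂ) (u (ε j))) •
      ((LinearMap.proj j : (Fin d → ℂ) →ₗ[ℝ] ℂ))).comp Q))
    (fun ε => Complex.reLm.comp ((∑ j, ((starRingEnd ℂ) (u (ε j))) •
      ((LinearMap.proj j : (Fin d → ℂ) →ₗ[ℝ] ℂ))).comp Q))
    (fun a b c e => by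
      refine sum_congr rfl fun ε _ => ?_
      simp [sqF, hh, smul_eq_mul])) (by positivity)
  have hB := Dec.smul (V := V) (t := 2) (Dec.of_functionals (V := V) (ι := Fin d)
    (T := fun a b c e => ∑ j, sqF (fun v => (Q v j).im) (fun v => (Q v j).re) a b c e)
    (fun j => Complex.imLm.comp ((LinearMap.proj j : (Fin d → ℂ) →ₗ[ℝ] ℂ).comp Q))
    (fun j => Complex.reLm.comp ((LinearMap.proj j : (Fin d → ℂ) →ₗ[ℝ] ℂ).comp Q))
    (fun a b c e => by
      refine sum_congr rfl fun j _ => ?_
      simp [sqF])) (by norm_num)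
  refine (congrArg Dec (funext fun a => funext fun b => funext fun c => funext fun e => ?_)).mp
    (hA.add hB)
  have h := key (Q a) (Q b) (Q c) (Q e)
  have h' : cxT (fun v => Q v) a b c e = cxT (fun x : Fin d → ℂ => x) (Q a) (Q b) (Q c) (Q e) :=
    rfl
  rw [h', ← h]
  have hs : ∀ z w z' w' : ℂ, (z.im * w.re - w.im * z.re) * (z'.im * w'.re - w'.im * z'.re) =
      (z * (starRingEnd ℂ) w).im * (z' * (starRingEnd ℂ) w').im := by
    intro z w z' w'
    simp only [Complex.mul_im, Complex.conj_re, Complex.conj_im]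
    ring
  simp only [sqF, hs]

end Pool.Agent.X181.SP
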