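import Pool.Agent.Y519.HB.Last

/-!
# Sums of squares of decomposable two-forms

`Dec T`: the tensor `T` is a finite sum of squares of decomposable two-forms. The curvature tensors
of the round spheres and of the complex projective spaces have this property, and so have all their
pull-backs by linear maps and the sums of them.
-/

set_option autoImplicit false

namespace Pool.Agent.X181.SP

open Pool.Agent.W666.GB Pool.Agent.W669.HD Pool.Agent.Y519.HB Finset

variable {V : Type} [NormedAddCommGroup V] [InnerProductSpace ℝ V]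

/-- sums of squares of decomposable two-forms -/
def Dec (T : V → V → V → V → ℝ) : Prop :=
  ∃ (n : ℕ) (x y : Fin n → V), ∀ a b c d, T a b c d = ∑ k, sqDec (x k) (y k) a b c d

theorem Dec.of_fintype {ι : Type} [Fintype ι] {T : V → V → V → V → ℝ} (x y : ι → V)
    (h : ∀ a b c d, T a b c d = ∑ k, sqDec (x k) (y k) a b c d) : Dec T := by
  refine ⟨Fintype.card ι, fun k => x ((Fintype.equivFin ι).symm k),
    fun k => y ((Fintype.equivFin ι).symm k), fun a b c d => ?_⟩
  rw [h]
  exact (Equiv.sum_comp (Fintype.equivFin ι).symm fun k => sqDec (x k) (y k) a b c d).symm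

theorem Dec.zero : Dec (fun _ _ _ _ : V => (0 : ℝ)) :=
  ⟨0, fun k => k.elim0, fun k => k.elim0, fun _ _ _ _ => by simp⟩

theorem Dec.add {T T' : V → V → V → V → ℝ} (h : Dec T) (h' : Dec T') :
    Dec (fun a b c d => T a b c d + T' a b c d) := by
  obtain ⟨n, x, y, h⟩ := h
  obtain ⟨n', x', y', h'⟩ := h'
  refine Dec.of_fintype (ι := Fin n ⊕ Fin n') (Sum.elim x x') (Sum.elim y y') fun a b c d => ?_
  rw [h, h', Fintype.sum_sum_type]
  rfl

theorem Dec.sum {ι : Type} (s : Finset ι) {T : ι → V → V → V → V → ℝ} (h : ∀ i ∈ s, Dec (T i)) :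
    Dec (fun a b c d => ∑ i ∈ s, T i a b c d) := by
  classical
  induction s using Finset.induction_on with
  | empty => simpa using Dec.zero (V := V)
  | insert i s hi ih =>
    have h1 := (h i (mem_insert_self i s)).add (ih fun j hj => h j (mem_insert_of_mem hj))
    have h2 : (fun a b c d : V => ∑ i ∈ insert i s, T i a b c d) =
        fun a b c d => T i a b c d + ∑ i ∈ s, T i a b c d := by
      funext a b c d
      rw [sum_insert hi]
    rw [h2]
    exact h1

theorem Dec.smul {T : V → V → V → V → ℝ} (h : Dec T) {t : ℝ} (ht : 0 ≤ t) :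
    Dec (fun a b c d => t * T a b c d) := by
  obtain ⟨n, x, y, h⟩ := h
  refine ⟨n, fun k => Real.sqrt t • x k, y, fun a b c d => ?_⟩
  change t * T a b c d = _
  rw [h, mul_sum]
  refine sum_congr rfl fun k _ => ?_
  simp only [sqDec, real_inner_smul_left]
  have h1 := Real.mul_self_sqrt ht
  linear_combination (-((inner ℝ (x k) a * inner ℝ (y k) b - inner ℝ (x k) b * inner ℝ (y k) a) *
    (inner ℝ (x k) c * inner ℝ (y k) d - inner ℝ (x k) d * inner ℝ (y k) c))) * h1

/-- The square of the two-form `f ∧ g`, `f` and `g` linear functionals. -/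
def sqF (f g : V → ℝ) (a b c d : V) : ℝ := (f a * g b - f b * g a) * (f c * g d - f d * g c)

theorem Dec.of_functionals [FiniteDimensional ℝ V] {ι : Type} [Fintype ι]
    {T : V → V → V → V → ℝ} (f g : ι → V →ₗ[ℝ] ℝ)
    (h : ∀ a b c d, T a b c d = ∑ k, sqF (f k) (g k) a b c d) : Dec T := by
  have : CompleteSpace V := FiniteDimensional.complete ℝ V
  refine Dec.of_fintype (fun k => (InnerProductSpace.toDual ℝ V).symm (f k).toContinuousLinearMap)
    (fun k => (InnerProductSpace.toDual ℝ V).symm (g k).toContinuousLinearMap) fun a b c d => ?_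
  rw [h]
  refine sum_congr rfl fun k _ => ?_
  simp only [sqF, sqDec, InnerProductSpace.toDual_symm_apply, LinearMap.coe_toContinuousLinearMap']

/-- **The curvature tensor of constant curvature one**, pulled back by a linear map. -/
def realT {d : ℕ} (P : V → Fin d → ℝ) (a b c e : V) : ℝ :=
  (∑ i, P a i * P c i) * (∑ i, P b i * P e i) - (∑ i, P a i * P e i) * (∑ i, P b i * P c i)

theorem Dec.real [FiniteDimensional ℝ V] {d : ℕ} (P : V →ₗ[ℝ] Fin d → ℝ) :
    Dec (realT (fun v => P v)) := by
  have h := Dec.smul (V := V) (t := 1 / 2) (Dec.of_functionals (V := V) (ι := Fin d × Fin d)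
    (T := fun a b c e => ∑ k : Fin d × Fin d, sqF (fun v => P v k.1) (fun v => P v k.2) a b c e)
    (fun k => (LinearMap.proj k.1).comp P) (fun k => (LinearMap.proj k.2).comp P)
    fun a b c e => rfl) (by norm_num)
  refine (congrArg Dec (funext fun a => funext fun b => funext fun c => funext fun e => ?_)).mp h
  simp only [realT, sqF, Fintype.sum_prod_type, Finset.sum_mul_sum]
  rw [mul_sum, ← sum_sub_distrib]
  have h1 : ∑ i, ∑ j, (P a i * P b j - P b i * P a j) * (P c i * P e j - P e i * P c j) =
      ∑ i, ∑ j, (2 * (P a i * P c i * (P b j * P e j) - P a i * P e i * (P b j * P c j))) := by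
    have h2 : ∑ i, ∑ j, (P a i * P b j - P b i * P a j) * (P c i * P e j - P e i * P c j) =
        ∑ i, ∑ j, (P a i * P c i * (P b j * P e j) - P a i * P e i * (P b j * P c j)) +
        ∑ i, ∑ j, (P a j * P c j * (P b i * P e i) - P a j * P e j * (P b i * P c i)) := by
      rw [← sum_add_distrib]
      refine sum_congr rfl fun i _ => ?_
      rw [← sum_add_distrib]
      refine sum_congr rfl fun j _ => ?_
      ring
    rw [h2, sum_comm (f := fun i j => P a j * P c j * (P b i * P e i) -
      P a j * P e j * (P b i * P c i)), ← sum_add_distrib]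
    refine sum_congr rfl fun i _ => ?_
    rw [← sum_add_distrib]
    refine sum_congr rfl fun j _ => ?_
    ring
  rw [← mul_sum, h1]
  rw [mul_sum]
  refine sum_congr rfl fun i _ => ?_
  rw [mul_sum, ← sum_sub_distrib]
  refine sum_congr rfl fun j _ => ?_
  ring

end Pool.Agent.X181.SP
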