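import Pool.Agent.X181.SP.Cx
import Pool.Agent.Y489.SM.Gc

/-!
# Submanifolds of nonpositive extrinsic curvature and codimension at most three
-/

set_option autoImplicit false

namespace Pool.Agent.X181.SP

open Pool.Agent.W666.GB Pool.Agent.W669.HD Pool.Agent.Y519.HB Finset MeasureTheory

variable {V W : Type} [NormedAddCommGroup V] [InnerProductSpace ℝ V]
  [NormedAddCommGroup W] [InnerProductSpace ℝ W]

theorem Dec.psd [FiniteDimensional ℝ V] {p q : ℕ} (P : V →ₗ[ℝ] Fin p → ℝ)
    (Q : V →ₗ[ℝ] Fin q → ℝ) :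
    Dec (kn (fun a b => ∑ i, P a i * P b i) (fun a b => ∑ j, Q a j * Q b j)) := by
  refine Dec.of_functionals (ι := Fin p × Fin q)
    (fun k => (LinearMap.proj k.1).comp P) (fun k => (LinearMap.proj k.2).comp Q)
    fun a b c d => ?_
  simp only [kn, sqF, Fintype.sum_prod_type, Finset.sum_mul_sum, LinearMap.comp_apply,
    LinearMap.proj_apply]
  have h1 : ∑ i, ∑ j, Q a i * Q c i * (P b j * P d j) =
      ∑ j, ∑ i, Q a i * Q c i * (P b j * P d j) := sum_comm
  have h2 : ∑ i, ∑ j, P b i * P c i * (Q a j * Q d j) =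
      ∑ i, ∑ j, P b i * P c i * (Q a j * Q d j) := rfl
  have h3 : (∑ i, ∑ j, P b i * P d i * (Q a j * Q c j)) =
      ∑ i, ∑ j, P b i * P d i * (Q a j * Q c j) := rfl
  rw [← sum_add_distrib, ← sum_sub_distrib, ← sum_sub_distrib]
  refine sum_congr rfl fun i _ => ?_
  rw [← sum_add_distrib, ← sum_sub_distrib, ← sum_sub_distrib]
  refine sum_congr rfl fun j _ => ?_
  ring

theorem sqDec_comp {U : Type} [NormedAddCommGroup U] [InnerProductSpace ℝ U]
    [FiniteDimensional ℝ V] [FiniteDimensional ℝ U] (P : V →ₗ[ℝ] U) {T : U → U → U → U → ℝ}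
    (h : Dec T) : Dec (fun a b c d => T (P a) (P b) (P c) (P d)) := by
  obtain ⟨n, x, y, h⟩ := h
  refine ⟨n, fun k => LinearMap.adjoint P (x k), fun k => LinearMap.adjoint P (y k),
    fun a b c d => ?_⟩
  change T _ _ _ _ = _
  rw [h]
  simp only [sqDec, LinearMap.adjoint_inner_left]

/-- symmetric bilinear maps from the tangent space to the normal space -/
structure Sff (β : V → V → W) : Prop where
  symm : ∀ x y, β x y = β y x
  add : ∀ x x' y, β (x + x') y = β x y + β x' y
  smul : ∀ (t : ℝ) (x y : V), β (t • x) y = t • β x y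

/-- the Gauss term -/
noncomputable def ext (β : V → V → W) (x y z w : V) : ℝ :=
  inner ℝ (β x z) (β y w) - inner ℝ (β x w) (β y z)

/-- the extrinsic sectional curvatures are nonpositive -/
def ExtNonpos (β : V → V → W) : Prop :=
  ∀ x y : V, inner ℝ (β x x) (β y y) - ‖β x y‖ ^ 2 ≤ 0

/-- the bilinear map -/
def Sff.map {β : V → V → W} (h : Sff β) : V →ₗ[ℝ] V →ₗ[ℝ] W :=
  LinearMap.mk₂ ℝ β h.add h.smul
    (fun x y y' => by rw [h.symm, h.add, h.symm y, h.symm y'])
    (fun t x y => by rw [h.symm, h.smul, h.symm y])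

theorem Sff.add' {β : V → V → W} (h : Sff β) (x y y' : V) : β x (y + y') = β x y + β x y' := by
  rw [h.symm, h.add, h.symm y, h.symm y']

theorem Sff.smul' {β : V → V → W} (h : Sff β) (t : ℝ) (x y : V) : β x (t • y) = t • β x y := by
  rw [h.symm, h.smul, h.symm y]

theorem ext_curv {β : V → V → W} (h : Sff β) : AlgCurv (ext β) where
  add x x' y z w := by
    simp only [ext, h.add, inner_add_left]; ring
  smul t x y z w := by
    simp only [ext, h.smul, real_inner_smul_left]; ring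
  anti x y z w := by
    simp only [ext]
    rw [real_inner_comm (β y z), real_inner_comm (β y w)]; ring
  pair x y z w := by
    simp only [ext]
    rw [h.symm z x, h.symm w y, h.symm z y, h.symm w x, real_inner_comm (β y z) (β x w)]
  bianchi x y z w := by
    simp only [ext]
    rw [h.symm z x, h.symm z y, h.symm y x, real_inner_comm (β x w) (β y z),
      real_inner_comm (β y w) (β x z), real_inner_comm (β z w) (β x y)]
    ring

theorem hopf_sub {k : ℕ} [FiniteDimensional ℝ W] {β : V → V → W} (h : Sff β)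
    (hK : ExtNonpos β) (hd : Module.finrank ℝ W ≤ 3) (e : OrthonormalBasis (Fin k × Bool) ℝ V) :
    0 ≤ (-1) ^ k * gbc e (ext β) := by
  have h1 := Pool.Agent.Y489.SM.criterion e h.map h.symm (le_refl (0 : ℝ)) fun j _ _ _ =>
    Or.inr ⟨by omega, fun x y => by
      rw [Pool.Agent.Y489.SM.gauss_sec h.symm]
      exact hK x y⟩
  have h2 : Pool.Agent.Y489.SM.shift 0 (Pool.Agent.Y489.SM.gauss h.map) = ext β := by
    funext x y z w
    simp [Pool.Agent.Y489.SM.shift, Pool.Agent.Y489.SM.gauss, ext, Sff.map]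
  rw [h2] at h1
  exact (roundGB_nonneg le_rfl).trans h1

theorem main {m : ℕ} (hm : 0 < m) [FiniteDimensional ℝ W]
    (e : OrthonormalBasis (Fin m × Bool) ℝ V) {β : V → V → W} (h : Sff β) (hK : ExtNonpos β)
    (hd : Module.finrank ℝ W ≤ 3) {A : V → V → V → V → ℝ} (hA : Dec A) {δ : ℝ} (hδ : 0 ≤ δ) :
    0 ≤ (-1) ^ m * gbc e (ext β) ∧
    roundGB m δ ≤ (-1) ^ m * gbc e (fun x y z w => -A x y z w - δ * unitT x y z w) ∧
    (-1) ^ m * gbc e (ext β) +
      (-1) ^ m * gbc e (fun x y z w => -A x y z w - δ * unitT x y z w) ≤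
      (-1) ^ m * gbc e (fun x y z w => ext β x y z w - A x y z w - δ * unitT x y z w) := by
  obtain ⟨n, a, b, hA⟩ := hA
  have h1 := mono_super hm e hδ (n := n) (x := a) (y := b) (S := ext β)
    (T := fun x y z w => -A x y z w - δ * unitT x y z w) (ext_curv h)
    (fun k _ E ε => by
      have hs : Sff (fun x y : E => β x y) :=
        ⟨fun x y => h.symm x y, fun x x' y => h.add x x' y, fun t x y => h.smul t x y⟩
      exact hopf_sub hs (fun x y => hK x y) hd ε)
    (fun x y z w => by rw [hA])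
  refine ⟨hopf_sub h hK hd e, h1.2, ?_⟩
  refine h1.1.trans_eq ?_
  congr 2
  funext x y z w
  simp only [addT]
  ring

/-- no shape operator is positive definite on a subspace of dimension larger than three -/
def Saddle3 (β : V → V → W) : Prop :=
  ∀ (ξ : W) (U : Submodule ℝ V), (∀ x ∈ U, x ≠ 0 → 0 < inner ℝ ξ (β x x)) →
    Module.finrank ℝ U ≤ 3

theorem six [FiniteDimensional ℝ W]
    (e : OrthonormalBasis (Fin 3 × Bool) ℝ V) {β : V → V → W} (h : Sff β) (hK : ExtNonpos β)
    (hd : Saddle3 β) {A : V → V → V → V → ℝ} (hA : Dec A) {δ : ℝ} (hδ : 0 ≤ δ) :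
    gbc e (ext β) ≤ 0 ∧
    gbc e (fun x y z w => -A x y z w - δ * unitT x y z w) ≤ -roundGB 3 δ ∧
    gbc e (fun x y z w => ext β x y z w - A x y z w - δ * unitT x y z w) ≤
      gbc e (ext β) + gbc e (fun x y z w => -A x y z w - δ * unitT x y z w) := by
  obtain ⟨n, a, b, hA⟩ := hA
  have h0 : 0 ≤ (-1) ^ 3 * gbc e (ext β) := by
    have h1 := Pool.Agent.Y489.SM.criterion e h.map h.symm (le_refl (0 : ℝ))
      fun j _ _ hj => Or.inl fun ξ => by
        rw [hj rfl]
        exact Pool.Agent.Y489.SM.saddle_coeff e h.map h.symm hd ξ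
    have h2 : Pool.Agent.Y489.SM.shift 0 (Pool.Agent.Y489.SM.gauss h.map) = ext β := by
      funext x y z w
      simp [Pool.Agent.Y489.SM.shift, Pool.Agent.Y489.SM.gauss, ext, Sff.map]
    rw [h2] at h1
    exact (roundGB_nonneg le_rfl).trans h1
  have h1 := six_super e hδ (n := n) (x := a) (y := b) (S := ext β)
    (T := fun x y z w => -A x y z w - δ * unitT x y z w) (ext_curv h)
    (fun x y => by
      have := hK x y
      simp only [ext]
      rw [h.symm y x, real_inner_self_eq_norm_sq]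
      exact this)
    (fun x y z w => by rw [hA])
  have h3 : addT (ext β) (fun x y z w => -A x y z w - δ * unitT x y z w) =
      fun x y z w => ext β x y z w - A x y z w - δ * unitT x y z w := by
    funext x y z w
    simp only [addT]
    ring
  rw [h3] at h1
  refine ⟨by linarith, by linarith [h1.2], by linarith [h1.1]⟩

theorem main_le {m : ℕ} (hm : 0 < m) [FiniteDimensional ℝ W]
    (e : OrthonormalBasis (Fin m × Bool) ℝ V) {β : V → V → W} (h : Sff β) (hK : ExtNonpos β)
    (hd : Module.finrank ℝ W ≤ 3) {A : V → V → V → V → ℝ} (hA : Dec A) {δ : ℝ} (hδ : 0 ≤ δ) :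
    roundGB m δ ≤
      (-1) ^ m * gbc e (fun x y z w => ext β x y z w - A x y z w - δ * unitT x y z w) := by
  have h1 := main hm e h hK hd hA hδ
  linarith [h1.1, h1.2.1, h1.2.2]

theorem integrated {m : ℕ} (hm : 0 < m) (M : Type) [MeasurableSpace M] (μ : Measure M)
    (K : CurvField m M) (δ : M → ℝ)
    (h : ∀ p, 0 ≤ δ p ∧ ∃ (q : ℕ) (β : K.V p → K.V p → EuclideanSpace ℝ (Fin q))
      (A : K.V p → K.V p → K.V p → K.V p → ℝ), (q ≤ 3 ∨ m = 3 ∧ Saddle3 β) ∧ Sff β ∧
        ExtNonpos β ∧ Dec A ∧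
        K.R p = fun x y z w => ext β x y z w - A x y z w - δ p * unitT x y z w) :
    0 ≤ (-1) ^ m * ∫ p, K.gb p ∂μ ∧
      (Integrable K.gb μ → ∫ p, roundGB m (δ p) ∂μ ≤ (-1) ^ m * ∫ p, K.gb p ∂μ) := by
  refine Pool.Agent.Y489.SM.integrated μ K δ (fun p => (h p).1) fun p => ?_
  obtain ⟨hδ, q, β, A, hq, hs, hK, hA, hR⟩ := h p
  rw [CurvField.gb, hR]
  rcases hq with hq | ⟨rfl, hq⟩
  · exact main_le hm (K.e p) hs hK (by rw [finrank_euclideanSpace_fin]; exact hq) hA hδ
  · have h6 := six (K.e p) hs hK hq hA hδ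
    linarith [h6.1, h6.2.1, h6.2.2]

end Pool.Agent.X181.SP
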